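import Pool.Agent.P.MP_0ff3a5_nt.All.Pat

/-! Forcing with two free parameters. -/

namespace Pool.Agent.P.MP_0ff3a5_nt.All
open Finset Filter Pool.Agent.P.MP_0ff3a5_nt

def VW (S : ℝ → Prop) (a b : ℝ) (π : Finset ℤ) (D K0 : ℕ) (T1 : ℝ) (n : ℕ) : Type :=
  {p : ℝ × ℝ × ℤ // (S p.1 ∧ 1 ≤ p.2.1 ∧ p.2.1 ≤ T1 ∧ Sp p.1 a b π D K0 p.2.1) ∧
    Vd p.1 a b p.2.1 π n p.2.2}

def CodeW (S : ℝ → Prop) (a b : ℝ) (π : Finset ℤ) (D K0 : ℕ) (T1 : ℝ) (n : ℕ) (B : ℝ) : Prop :=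
  ∃ (ι : Type) (_ : Fintype ι), (Fintype.card ι : ℝ) ≤ B ∧ ∃ f : VW S a b π D K0 T1 n → ι,
    ∀ p q, f p = f q → (∀ k < n, s p.1.1 p.1.2.1 k = s q.1.1 q.1.2.1 k) ∧ p.1.2.2 = q.1.2.2

lemma codeW_base {S : ℝ → Prop} {a b μ : ℝ} (hS : ∀ α, S α → Par α a b μ) (hb : 1 ≤ b)
    (π : Finset ℤ) (D K0 : ℕ) (T1 : ℝ) (n : ℕ) : ∃ B, 0 ≤ B ∧ CodeW S a b π D K0 T1 n B := by
  set M : ℤ := ⌈b * 2 ^ n * T1⌉ with hM
  refine ⟨_, Nat.cast_nonneg _, (Fin n → Icc (0 : ℤ) M) × Icc (0 : ℤ) M, inferInstance, le_rfl,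
    fun p => (fun k => ⟨s p.1.1 p.1.2.1 k, ?_⟩, ⟨p.1.2.2, ?_⟩), ?_⟩
  · obtain ⟨⟨α, t, y⟩, ⟨t0, t1, t2, -⟩, -⟩ := p
    simp only at t0 t1 t2 ⊢
    have P := hS α t0
    have h1 := P.h1
    refine mem_Icc.2 ⟨s_nonneg (by linarith) (by linarith) _, ?_⟩
    have a1 : (s α t k : ℝ) ≤ t * α ^ (k : ℕ) := Int.floor_le _
    have a2 : α ^ (k : ℕ) ≤ 2 ^ n :=
      (pow_le_pow_right₀ h1.le k.2.le).trans (by gcongr; exact P.h2.le)
    have a3 : t * α ^ (k : ℕ) ≤ T1 * 2 ^ n := by gcongr; linarith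
    have a4 : 0 ≤ T1 * 2 ^ n := by have : 0 ≤ T1 := by linarith
                                   positivity
    have : (s α t k : ℝ) ≤ M := le_trans (by nlinarith) (Int.le_ceil _)
    exact_mod_cast this
  · obtain ⟨⟨α, t, y⟩, ⟨t0, t1, t2, -⟩, ⟨b1, b2⟩, -⟩ := p
    simp only at t0 t1 t2 b1 b2 ⊢
    have P := hS α t0
    have h1 := P.h1
    rw [le_div_iff₀ (by linarith)] at b1
    rw [div_le_iff₀ (by linarith)] at b2
    have a1 : (0 : ℝ) ≤ y := le_trans (by have := P.ha; positivity) b1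
    have a2 : (y : ℝ) ≤ M := le_trans (b2.trans (by gcongr; exact P.h2.le)) (Int.le_ceil _)
    exact mem_Icc.2 ⟨by exact_mod_cast a1, by exact_mod_cast a2⟩
  · intro p q h
    rw [Prod.mk.injEq] at h
    exact ⟨fun k hk => congrArg Subtype.val (congrFun h.1 ⟨k, hk⟩), congrArg Subtype.val h.2⟩

/-- two orbits that are close at two consecutive times stay close for a while -/
lemma drift {α α' t t' : ℝ} (h1 : 1 < α) (h2 : α < 2) (h1' : 1 < α') (h2' : α' < 2) (ht' : 0 ≤ t')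
    {j : ℕ} (e0 : |t * α ^ j - t' * α' ^ j| ≤ 1) (e1 : |t * α ^ (j + 1) - t' * α' ^ (j + 1)| ≤ 1)
    (m : ℕ) : |α - α'| * (t' * α' ^ (j + m)) ≤ 3 * 2 ^ m ∧
      |t * α ^ (j + 1 + m) - t' * α' ^ (j + 1 + m)| ≤ 8 ^ m := by
  have z : ∀ m : ℕ, |α - α'| * (t' * α' ^ (j + m)) ≤ 3 * 2 ^ m := by
    intro m
    induction m with
    | zero =>
      have p : 0 ≤ t' * α' ^ j := by positivity
      have : (α - α') * (t' * α' ^ j) =
          (t * α ^ (j + 1) - t' * α' ^ (j + 1)) - α * (t * α ^ j - t' * α' ^ j) := by ring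
      rw [add_zero, pow_zero, ← abs_of_nonneg p, ← abs_mul, abs_le, this]
      obtain ⟨a1, a2⟩ := abs_le.1 e0
      obtain ⟨a3, a4⟩ := abs_le.1 e1
      constructor <;> nlinarith
    | succ m ih =>
      have p : 0 ≤ |α - α'| * (t' * α' ^ (j + m)) := by positivity
      rw [← add_assoc, pow_succ, pow_succ]
      nlinarith
  refine ⟨z m, ?_⟩
  induction m with
  | zero => simpa using e1
  | succ m ih =>
    have a0 := z (m + 1)
    have p : 0 ≤ t' * α' ^ (j + (m + 1)) := by positivity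
    rw [← abs_of_nonneg p, ← abs_mul] at a0
    have e : t * α ^ (j + 1 + (m + 1)) - t' * α' ^ (j + 1 + (m + 1)) =
        α * (t * α ^ (j + 1 + m) - t' * α' ^ (j + 1 + m)) + (α - α') * (t' * α' ^ (j + (m + 1))) := by
      ring
    obtain ⟨a1, a2⟩ := abs_le.1 a0
    obtain ⟨a3, a4⟩ := abs_le.1 ih
    have a5 : (2 : ℝ) ^ m ≤ 8 ^ m := by gcongr; norm_num
    rw [e, abs_le, pow_succ (8 : ℝ)]
    rw [pow_succ (2 : ℝ)] at a1 a2
    constructor <;> nlinarith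

lemma s_close {α α' t t' E : ℝ} {k : ℕ} (h : |t * α ^ k - t' * α' ^ k| ≤ E) :
    |(s α t k : ℝ) - s α' t' k| ≤ E + 1 := by
  have a1 : (s α t k : ℝ) ≤ t * α ^ k := Int.floor_le _
  have a2 : t * α ^ k < s α t k + 1 := Int.lt_floor_add_one _
  have a3 : (s α' t' k : ℝ) ≤ t' * α' ^ k := Int.floor_le _
  have a4 : t' * α' ^ k < s α' t' k + 1 := Int.lt_floor_add_one _
  obtain ⟨a5, a6⟩ := abs_le.1 h
  rw [abs_le]; constructor <;> linarith

lemma close_of_s' {α α' t t' : ℝ} {k : ℕ} (h : s α t k = s α' t' k) :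
    |t * α ^ k - t' * α' ^ k| ≤ 1 := (Int.abs_sub_lt_one_of_floor_eq_floor h).le

lemma pow_lip {x y : ℝ} (hx : 0 ≤ x) (hx2 : x ≤ 2) (hy : 0 ≤ y) (hy2 : y ≤ 2) (k : ℕ) :
    |x ^ k - y ^ k| ≤ 4 ^ k * |x - y| := by
  induction k with
  | zero => simp
  | succ k ih =>
    have e : x ^ (k + 1) - y ^ (k + 1) = x * (x ^ k - y ^ k) + y ^ k * (x - y) := by ring
    have a1 : y ^ k ≤ 4 ^ k := by gcongr; linarith
    have a2 : 0 ≤ y ^ k := by positivity
    have a3 := abs_nonneg (x - y)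
    have a4 := abs_nonneg (x ^ k - y ^ k)
    rw [e, pow_succ (4 : ℝ)]
    refine (abs_add_le _ _).trans ?_
    rw [abs_mul, abs_mul, abs_of_nonneg hx, abs_of_nonneg a2]
    nlinarith

lemma val_norm {x y : ℝ} (hx : 0 < x) (hx2 : x ≤ 2) (hy : 0 < y) (hy2 : y ≤ 2) {i L : ℕ}
    {F : Finset ℕ} (hF : F ⊆ Ico i (i + L)) :
    |val x F / x ^ i - val y F / y ^ i| ≤ L * 4 ^ L * |x - y| := by
  have e : ∀ z : ℝ, 0 < z → val z F / z ^ i = ∑ k ∈ F, z ^ (k - i) := by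
    intro z hz
    rw [val, sum_div]
    refine sum_congr rfl fun k hk => ?_
    rw [pow_sub₀ _ hz.ne' (mem_Ico.1 (hF hk)).1, div_eq_mul_inv]
  rw [e x hx, e y hy, ← sum_sub_distrib]
  refine (abs_sum_le_sum_abs _ _).trans ?_
  refine (sum_le_card_nsmul _ _ (4 ^ L * |x - y|) fun k hk => ?_).trans ?_
  · refine (pow_lip hx.le hx2 hy.le hy2 _).trans ?_
    have := mem_Ico.1 (hF hk)
    gcongr
    · norm_num
    · omega
  · have a3 : (F.card : ℝ) ≤ L := by exact_mod_cast (card_le_card hF).trans (by simp)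
    rw [nsmul_eq_mul, mul_assoc]
    gcongr

lemma codeW_step {S : ℝ → Prop} {a b μ α0 α1 : ℝ} {T L D K0 : ℕ}
    (hS : ∀ α, S α → α0 ≤ α ∧ α ≤ α1 ∧ Par α a b μ ∧ Two α a b μ T ∧
      2 * ((L : ℝ) + D) ≤ μ * α ^ K0)
    (hb : 1 ≤ b) (hμ : 0 < μ) (hα1 : 1 ≤ α1) (hW : 8 * (L * 4 ^ L * (α1 - α0)) ≤ μ) (hL : T < L)
    (hD : 2 * (L * (8 ^ L + 1)) ≤ (D : ℝ)) (hK1 : 2 ≤ K0)
    {π : Finset ℤ} {T1 : ℝ} {i : ℕ} (hi : K0 ≤ i) {B : ℝ} (hB : CodeW S a b π D K0 T1 i B) :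
    CodeW S a b π D K0 T1 (i + L) (B * ((8 * b / μ + 1) * 10 ^ T * α1 ^ L)) := by
  obtain ⟨ι, _, hι, f, hf⟩ := hB
  have hpL : 1 ≤ α1 ^ L := one_le_pow₀ hα1
  set δ := μ / 8 with hδ
  have hδ0 : 0 < δ := by positivity
  set M : ℕ := ⌊8 * b / μ * α1 ^ L⌋₊ + 1 with hM
  set Uo : VW S a b π D K0 T1 (i + L) → ℕ := fun p => ⌊(p.1.2.2 / p.1.2.1) / p.1.1 ^ i / δ⌋₊
    with hUo
  have hKi : ∀ α, S α → 2 * ((L : ℝ) + D) ≤ μ * α ^ i := fun α hα => by
    obtain ⟨-, -, P, -, h⟩ := hS α hα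
    exact h.trans (by gcongr; exact P.h1.le)
  have x0 : ∀ p : VW S a b π D K0 T1 (i + L), 0 ≤ (p.1.2.2 / p.1.2.1) / p.1.1 ^ i := by
    rintro ⟨⟨α, t, y⟩, ⟨t0, t1, t2, t3⟩, ⟨v1, v1'⟩, v2⟩
    obtain ⟨-, -, P, -⟩ := hS α t0
    have := P.h1
    exact div_nonneg (le_trans (by have := P.ha; positivity) v1) (by positivity)
  have hU : ∀ p, Uo p < M := by
    rintro ⟨⟨α, t, y⟩, ⟨t0, t1, t2, t3⟩, ⟨v1, v1'⟩, v2⟩
    obtain ⟨-, c2, P, -⟩ := hS α t0
    have h1 := P.h1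
    refine Nat.lt_succ_of_le (Nat.floor_mono ?_)
    simp only at v1' ⊢
    rw [div_le_iff₀ hδ0, div_le_iff₀ (by positivity)]
    refine v1'.trans ?_
    have : α ^ L ≤ α1 ^ L := by gcongr
    calc b * α ^ (i + L) = b * α ^ L * α ^ i := by ring
      _ ≤ b * α1 ^ L * α ^ i := by gcongr
      _ = _ := by rw [hδ]; field_simp
  have hF0 : ∀ U, ∃ F, ∀ p, Uo p = U → F ⊆ Ico i (i + L) ∧
      Blk p.1.1 (a + μ / 2) (b - μ / 2) i (p.1.2.2 / p.1.2.1 - val p.1.1 F) := by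
    intro U
    by_cases h : ∃ q, Uo q = U
    · obtain ⟨q, hq⟩ := h
      obtain ⟨q1, q2, Pq, -⟩ := hS _ q.2.1.1
      obtain ⟨F, hF, f1, f2⟩ := Pq.one (by omega : i < i + L) q.2.2.1
      refine ⟨F, fun p hp => ⟨hF, ?_⟩⟩
      obtain ⟨p1, p2, Pp, -⟩ := hS _ p.2.1.1
      have hq0 : 0 < q.1.1 := by linarith [Pq.h1]
      have hp0 : 0 < p.1.1 := by linarith [Pp.h1]
      have a1 := val_norm hp0 Pp.h2.le hq0 Pq.h2.le hF
      have a2 : |p.1.1 - q.1.1| ≤ α1 - α0 := by rw [abs_le]; constructor <;> linarith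
      have a3 : (L : ℝ) * 4 ^ L * |p.1.1 - q.1.1| ≤ L * 4 ^ L * (α1 - α0) := by gcongr
      have a4 := Int.abs_sub_lt_one_of_floor_eq_floor (R := ℝ)
        (a := (p.1.2.2 / p.1.2.1) / p.1.1 ^ i / δ) (b := (q.1.2.2 / q.1.2.1) / q.1.1 ^ i / δ) (by
          rw [← Int.natCast_floor_eq_floor (div_nonneg (x0 p) hδ0.le),
            ← Int.natCast_floor_eq_floor (div_nonneg (x0 q) hδ0.le)]
          exact congrArg _ (hp.trans hq.symm))
      rw [← sub_div, abs_div, abs_of_pos hδ0, div_lt_one hδ0] at a4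
      have hqi : 0 < q.1.1 ^ i := pow_pos hq0 i
      have hpi : 0 < p.1.1 ^ i := pow_pos hp0 i
      rw [← le_div_iff₀ hqi, sub_div] at f1
      rw [← div_le_iff₀ hqi, sub_div] at f2
      obtain ⟨a5, a6⟩ := abs_le.1 a1
      obtain ⟨a7, a8⟩ := abs_lt.1 a4
      constructor
      · rw [← le_div_iff₀ hpi, sub_div]; linarith
      · rw [← div_le_iff₀ hpi, sub_div]; linarith
    · exact ⟨∅, fun p hp => absurd ⟨p, hp⟩ h⟩
  choose F0 hF0 using hF0
  have land : ∀ (α t : ℝ) (y : ℤ), S α → 1 ≤ t → ∀ F ⊆ Ico i (i + L),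
      Blk α (a + μ / 2) (b - μ / 2) i (y / t - val α F) →
      ∀ v : ℤ, |v - (y - ∑ k ∈ F, s α t k)| ≤ D → Blk α a b i (v / t) := by
    intro α t y hα ht F hF hb v hv
    refine blk_of_close (by linarith) hb ?_
    have a0 := hKi α hα
    have a1 := sum_s_le α t F
    have a2 := le_sum_s α t F
    have a3 : (F.card : ℝ) ≤ L := by exact_mod_cast (card_le_card hF).trans (by simp)
    have a4 : |(v : ℝ) - (y - ((∑ k ∈ F, s α t k : ℤ) : ℝ))| ≤ D := by exact_mod_cast hv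
    obtain ⟨a5, a6⟩ := abs_le.1 a4
    have a7 : t * (y / t - val α F) = y - t * val α F := by field_simp
    have a11 : (0 : ℝ) ≤ L := Nat.cast_nonneg _
    have a12 : (0 : ℝ) ≤ D := Nat.cast_nonneg _
    have a10 : μ / 2 * α ^ i ≤ t * (μ / 2 * α ^ i) := le_mul_of_one_le_left (by linarith) ht
    rw [abs_le, a7]
    constructor <;> linarith
  have par : ∀ p : VW S a b π D K0 T1 (i + L), Vd p.1.1 a b p.1.2.1 π i
      (p.1.2.2 - ∑ k ∈ F0 (Uo p), s p.1.1 p.1.2.1 k) := by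
    intro p
    obtain ⟨c1, c2⟩ := hF0 _ p rfl
    exact ⟨land _ _ _ p.2.1.1 p.2.1.2.1 _ c1 c2 _ (by simp), p.2.2.2.desc (by omega) c1⟩
  refine ⟨ι × Fin M × (Fin T → Fin 10), inferInstance, ?_, fun p =>
    (f ⟨(p.1.1, p.1.2.1, p.1.2.2 - ∑ k ∈ F0 (Uo p), s p.1.1 p.1.2.1 k), p.2.1, par p⟩,
      ⟨_, hU p⟩, fun j => ⟨(s p.1.1 p.1.2.1 (i + L - T + j) % 10).toNat, by omega⟩), ?_⟩
  · simp only [Fintype.card_prod, Fintype.card_fin, Fintype.card_fun]
    push_cast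
    have : (M : ℝ) ≤ (8 * b / μ + 1) * α1 ^ L := by
      rw [hM]; push_cast
      have := Nat.floor_le (show 0 ≤ 8 * b / μ * α1 ^ L by positivity)
      linarith
    have hB0 : 0 ≤ B := le_trans (Nat.cast_nonneg _) hι
    calc (Fintype.card ι : ℝ) * (M * 10 ^ T) ≤ B * (((8 * b / μ + 1) * α1 ^ L) * 10 ^ T) := by
          gcongr
      _ = _ := by ring
  · intro p q h
    simp only [Prod.mk.injEq, Fin.mk.injEq] at h
    obtain ⟨e1, e2, e3⟩ := h
    obtain ⟨g1, g2⟩ := hf _ _ e1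
    obtain ⟨c1, -⟩ := hF0 _ p rfl
    simp only at g1 g2
    rw [← e2] at g2
    generalize F0 (Uo p) = G at c1 g2
    clear e1 e2 hF0 par hU x0
    obtain ⟨⟨α, t, y⟩, ⟨t0, t1, t2, t3⟩, v1, v2⟩ := p
    obtain ⟨⟨α', t', y'⟩, ⟨t0', t1', t2', t3'⟩, v1', v2'⟩ := q
    simp only at g1 g2 t0 t0' t1 t1' t3 v1 v2 v1' v2' e3 ⊢
    obtain ⟨-, -, P, h2, -⟩ := hS α t0
    obtain ⟨-, -, P', -⟩ := hS α' t0'
    have h1 := P.h1
    have dr : ∀ k ∈ Ico i (i + L), |(s α t k : ℝ) - s α' t' k| ≤ 8 ^ L + 1 := by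
      intro k hk
      obtain ⟨k1, k2⟩ := mem_Ico.1 hk
      obtain ⟨j, rfl⟩ : ∃ j, i = j + 2 := ⟨i - 2, by omega⟩
      have := (drift h1 P.h2 P'.h1 P'.h2 (by linarith) (close_of_s' (g1 j (by omega)))
        (close_of_s' (g1 (j + 1) (by omega))) (k - (j + 1))).2
      rw [show j + 1 + (k - (j + 1)) = k by omega] at this
      refine (s_close this).trans ?_
      gcongr
      · norm_num
      · omega
    have sm : ∀ F ⊆ Ico i (i + L), |((∑ k ∈ F, s α t k : ℤ) : ℝ) - ((∑ k ∈ F, s α' t' k : ℤ) : ℝ)|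
        ≤ L * (8 ^ L + 1) := by
      intro F hF
      push_cast
      rw [← sum_sub_distrib]
      refine (abs_sum_le_sum_abs _ _).trans ?_
      refine (sum_le_card_nsmul _ _ _ fun k hk => dr k (hF hk)).trans ?_
      have a3 : (F.card : ℝ) ≤ L := by exact_mod_cast (card_le_card hF).trans (by simp)
      rw [nsmul_eq_mul]
      gcongr
    have key : ∀ F ⊆ Ico i (i + L), Blk α (a + μ) (b - μ) i (y / t - val α F) →
        y - ∑ k ∈ F, s α t k = y' - ∑ k ∈ F, s α' t' k := by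
      intro F hF hb''
      have hb' : Blk α (a + μ / 2) (b - μ / 2) i (y / t - val α F) := by
        refine Blk.mono (μ := μ / 2) (by linarith) (by linarith) ?_
        rwa [show a + μ / 2 + μ / 2 = a + μ by ring, show b - μ / 2 - μ / 2 = b - μ by ring]
      have cl : |(y' - ∑ k ∈ F, s α' t' k) - (y - ∑ k ∈ F, s α t k)| ≤ D := by
        obtain ⟨a1, a2⟩ := abs_le.1 (sm F hF)
        obtain ⟨a3, a4⟩ := abs_le.1 (sm G c1)
        have a15 : (y : ℝ) - ((∑ k ∈ G, s α t k : ℤ) : ℝ) =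
            y' - ((∑ k ∈ G, s α' t' k : ℤ) : ℝ) := by exact_mod_cast g2
        have : |((y' : ℝ) - ((∑ k ∈ F, s α' t' k : ℤ) : ℝ)) -
            (y - ((∑ k ∈ F, s α t k : ℤ) : ℝ))| ≤ D := by
          rw [abs_le]; constructor <;> linarith
        exact_mod_cast this
      refine ((t3 i hi).2 _ _ ⟨land α t y t0 t1 F hF hb' _ cl, ?_⟩
        ⟨land α t y t0 t1 F hF hb' _ (by simp), v2.desc (by omega) hF⟩ cl).symm
      exact (v2'.desc (by omega) hF).congr fun k hk => (g1 k hk).symm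
    have low : ∀ m, m + T < i + L → s α t m = s α' t' m := by
      intro m
      induction m using Nat.strong_induction_on with
      | _ m ih =>
        intro hm
        by_cases him : m < i
        · exact g1 m him
        obtain ⟨F, hF, F', hF', m1, m2, m3, b1, b2⟩ := h2 i m _ (by omega) hm _ v1
        have k1 := key F hF b1
        have k2 := key F' hF' b2
        have := split_sum (e := fun k => s α t k - s α' t' k) hF hF' m1 m2 m3
          (fun k _ hk => sub_eq_zero.2 (ih k hk (by omega)))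
          (by rw [sum_sub_distrib, sum_sub_distrib]; linarith)
        exact sub_eq_zero.1 this
    have all : ∀ m, m < i + L → s α t m = s α' t' m := by
      intro m
      induction m using Nat.strong_induction_on with
      | _ m ih =>
        intro hm
        by_cases hc : m + T < i + L
        · exact low _ hc
        have e4 := congrArg Fin.val (congrFun e3 ⟨m - (i + L - T), by omega⟩)
        simp only at e4
        rw [show i + L - T + (m - (i + L - T)) = m by omega] at e4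
        obtain ⟨j, rfl⟩ : ∃ j, m = j + 2 := ⟨m - 2, by omega⟩
        have n0 := (drift h1 P.h2 P'.h1 P'.h2 (by linarith)
          (close_of_s' (ih j (by omega) (by omega)))
          (close_of_s' (ih (j + 1) (by omega) (by omega))) 1).2
        have n1 := s_close n0
        have n2 : |s α t (j + 1 + 1) - s α' t' (j + 1 + 1)| ≤ 9 := by
          have : |(s α t (j + 1 + 1) : ℝ) - s α' t' (j + 1 + 1)| ≤ 9 := n1.trans (by norm_num)
          exact_mod_cast this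
        obtain ⟨n3, n4⟩ := abs_le.1 n2
        rw [show j + 1 + 1 = j + 2 by ring] at n3 n4
        omega
    refine ⟨all, ?_⟩
    have : ∑ k ∈ G, s α t k = ∑ k ∈ G, s α' t' k :=
      sum_congr rfl fun k hk => all k (mem_Ico.1 (c1 hk)).2
    linarith

end Pool.Agent.P.MP_0ff3a5_nt.All
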