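import Pool.Agent.P.MP_0ff3a5_nt.All.Force2
import Pool.Agent.P.MP_0ff3a5_nt.PartC

/-! Bases that carry a separated persistent pattern for some `t` form a null set. -/

namespace Pool.Agent.P.MP_0ff3a5_nt.All
open Finset Filter MeasureTheory Pool.Agent.P.MP_0ff3a5_nt

lemma null_W {a b μ : ℝ} (ha : 0 < a) (hb : 1 ≤ b) (hμ : 0 < μ) (T A : ℕ) :
    ∃ ω > 0, ∃ D K1 : ℕ, ∀ α0 α1 : ℝ, 1 ≤ α0 → α0 ≤ α1 → α1 - α0 ≤ ω →
      ∀ (m0 : ℕ) (π : Finset ℤ) (K0 : ℕ), K1 ≤ K0 → ∀ T1 : ℝ,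
      volume {α | (α0 ≤ α ∧ α ≤ α1 ∧ Par α a b μ ∧ Two α a b μ T) ∧ Sep α A m0 ∧
        ∃ t, 1 ≤ t ∧ t ≤ T1 ∧ Sp α a b π D K0 t} = 0 := by
  set C : ℝ := (8 * b / μ + 1) * 10 ^ T with hC
  have hC0 : 0 < C := by positivity
  obtain ⟨h, hh, hh1⟩ := (((tendsto_pow_atTop_atTop_of_one_lt (one_lt_two (α := ℝ))
    ).eventually_ge_atTop (4 * C)).and (eventually_ge_atTop 1)).exists
  set L := (A + 1) * (h * (T + 1)) with hL
  have hTL : T < L := by
    have : T + 1 ≤ h * (T + 1) := Nat.le_mul_of_pos_left _ hh1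
    have : h * (T + 1) ≤ L := Nat.le_mul_of_pos_left _ (by omega)
    omega
  set D := ⌈2 * ((L : ℝ) * (8 ^ L + 1))⌉₊ with hD
  set γ := 1 + μ / a with hγ
  have h1 : 1 < γ := by have : 0 < μ / a := by positivity
                        linarith
  have hγα : ∀ α, Par α a b μ → γ ≤ α := fun α P => by
    have := P.lo
    rw [← div_le_iff₀ ha] at this
    linarith
  obtain ⟨K1, hK, hK1⟩ := (((tendsto_pow_atTop_atTop_of_one_lt h1).eventually_ge_atTop
    (2 * ((L : ℝ) + D) / μ)).and (eventually_ge_atTop 2)).exists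
  set ω := min (μ / (8 * (L * 4 ^ L) + 1)) (1 / 4 ^ L) with hω
  refine ⟨ω, by positivity, D, K1, fun α0 α1 hα0 h01 hω1 m0 π K0 hK0 T1 => ?_⟩
  rw [div_le_iff₀ hμ] at hK
  set S : ℝ → Prop := fun α => α0 ≤ α ∧ α ≤ α1 ∧ Par α a b μ ∧ Two α a b μ T with hSd
  have hS : ∀ α, S α → α0 ≤ α ∧ α ≤ α1 ∧ Par α a b μ ∧ Two α a b μ T ∧
      2 * ((L : ℝ) + D) ≤ μ * α ^ K0 := by
    rintro α ⟨s1, s2, s3, s4⟩
    refine ⟨s1, s2, s3, s4, ?_⟩
    have : γ ^ K1 ≤ α ^ K0 :=
      (pow_le_pow_right₀ h1.le hK0).trans (by gcongr; exact hγα α s3)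
    nlinarith
  have hW : 8 * (L * 4 ^ L * (α1 - α0)) ≤ μ := by
    have a1 : α1 - α0 ≤ μ / (8 * (L * 4 ^ L) + 1) := hω1.trans (min_le_left _ _)
    rw [le_div_iff₀ (by positivity)] at a1
    nlinarith
  by_cases hα2 : 2 < α0
  · refine measure_mono_null (fun α hα => ?_) (measure_empty (μ := volume))
    linarith [hα.1.1, hα.1.2.2.1.h2]
  have hrat : α1 ^ L ≤ 2 * α0 ^ L ∨ 2 < α1 := by
    by_cases hc : 2 < α1
    · exact Or.inr hc
    · left
      have a1 := pow_lip (x := α1) (y := α0) (by linarith) (by linarith) (by linarith)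
        (by linarith) L
      have a2 : α1 - α0 ≤ 1 / 4 ^ L := hω1.trans (min_le_right _ _)
      rw [le_div_iff₀ (by positivity)] at a2
      rw [abs_of_nonneg (by linarith : 0 ≤ α1 - α0)] at a1
      have := (abs_le.1 a1).2
      have : 1 ≤ α0 ^ L := one_le_pow₀ hα0
      nlinarith
  obtain ⟨α2, b1, b2, b3, b4⟩ : ∃ α2, 1 ≤ α2 ∧ α2 ≤ α1 ∧ (∀ α, S α → α ≤ α2) ∧
      α2 ^ L ≤ 2 * α0 ^ L := by
    rcases hrat with hr | hr
    · exact ⟨α1, by linarith, le_rfl, fun α hα => hα.2.1, hr⟩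
    · refine ⟨2, by norm_num, hr.le, fun α hα => hα.2.2.1.h2.le, ?_⟩
      have a1 := pow_lip (x := 2) (y := α0) (by linarith) (by linarith) (by linarith)
        (by linarith) L
      have a2 : α1 - α0 ≤ 1 / 4 ^ L := hω1.trans (min_le_right _ _)
      rw [le_div_iff₀ (by positivity)] at a2
      rw [abs_of_nonneg (by linarith : 0 ≤ 2 - α0)] at a1
      have := (abs_le.1 a1).2
      have : 1 ≤ α0 ^ L := one_le_pow₀ hα0
      have : (0 : ℝ) < 4 ^ L := by positivity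
      nlinarith
  obtain ⟨B, hB0, hB⟩ := codeW_base (S := S) (fun α hα => hα.2.2.1) hb π D K0 T1 K0
  have codes : ∀ j : ℕ, CodeW S a b π D K0 T1 (K0 + j * L) (B * (C * α2 ^ L) ^ j) := by
    intro j
    induction j with
    | zero => simpa using hB
    | succ j ih =>
      have := codeW_step (α0 := α0) (α1 := α2) (T := T) (L := L)
        (fun α hα => ⟨(hS α hα).1, b3 α hα, (hS α hα).2.2⟩) hb hμ b1
        (le_trans (by gcongr) hW) hTL (Nat.le_ceil _) (by omega) (by omega) ih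
      rwa [show K0 + j * L + L = K0 + (j + 1) * L by ring, mul_assoc, ← pow_succ] at this
  refine null_of_real (measure_ne_top_of_subset (s := Set.Icc α0 α1)
    (fun t ht => ⟨ht.1.1, ht.1.2.1⟩) (by simp)) (C := B * 6) ?_
  obtain ⟨N, hN⟩ := eventually_atTop.1 ((ev_lin_lt h1 hμ).and (ev_lin_lt h1 one_pos))
  filter_upwards [eventually_ge_atTop (N + m0 + 1)] with j hj
  obtain ⟨r, hr⟩ : ∃ r, j * h = r + 1 := ⟨j * h - 1, by
    have : 1 ≤ j * h := Nat.mul_pos (by omega) hh1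
    omega⟩
  set m := (r + 1) * (T + 1) with hm
  have hjm : j ≤ m := by
    have : j ≤ j * h := Nat.le_mul_of_pos_right _ hh1
    have : r + 1 ≤ m := Nat.le_mul_of_pos_right _ (by omega)
    omega
  have hLm : j * L = A * m + m := by rw [hm, ← hr, hL]; ring
  set K := K0 + j * L with hKd
  obtain ⟨ι, _, hι, f, hf⟩ := codes j
  obtain ⟨K', hK''⟩ : ∃ K', K = K' + 2 := ⟨K - 2, by omega⟩
  have hp : 0 < α0 ^ K' := pow_pos (by linarith) _
  have main := code_bound_real (κ := Fin (r + 1) → Bool)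
    (fun p : VW S a b π D K0 T1 K => p.1.1) f
    (r := 3 / α0 ^ K') (by positivity) (fun p q e => by
      have Pp := p.2.1.1.2.2.1
      have Pq := q.2.1.1.2.2.1
      have q1 := q.2.1.2.1
      have := (drift Pp.h1 Pp.h2 Pq.h1 Pq.h2 (by linarith)
        (close_of_s' ((hf p q e).1 K' (by omega)))
        (close_of_s' ((hf p q e).1 (K' + 1) (by omega))) 0).1
      rw [le_div_iff₀ hp]
      have a1 : α0 ^ K' ≤ q.1.1 ^ K' := by gcongr; exact q.2.1.1.1
      have a2 : α0 ^ K' ≤ q.1.2.1 * q.1.1 ^ (K' + 0) := by rw [add_zero]; nlinarith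
      have a3 := abs_nonneg (p.1.1 - q.1.1)
      nlinarith)
    {α | S α ∧ Sep α A m0 ∧ ∃ t, 1 ≤ t ∧ t ≤ T1 ∧ Sp α a b π D K0 t} (by
      rintro α ⟨hα, hSe, t, ht⟩
      have P := hα.2.2.1
      have h2 := hα.2.2.2
      have hα1 := P.h1
      have hγ' := hγα α P
      obtain ⟨y, hy⟩ := (ht.2.2 (K + m) (by omega)).1
      obtain ⟨g, hg, hg'⟩ := h2.br.many P r K hy.1
      have hc : ((K + m - K : ℕ) : ℝ) ≤ μ * α ^ K := by
        have : ((K + m - K : ℕ) : ℝ) ≤ K := by exact_mod_cast (by omega : K + m - K ≤ K)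
        have : μ * γ ^ K ≤ μ * α ^ K := by gcongr
        linarith [(hN K (by omega)).1]
      refine ⟨fun c => ⟨(α, t, y - ∑ k ∈ g c, s α t k), ⟨hα, ht⟩,
        hy.desc ht.1 (by omega) (hg' c).1 hc (hg' c).2⟩, fun _ => rfl, fun c d e => hg ?_⟩
      by_contra hne
      have e1 := (hf _ _ e).2
      simp only at e1
      have e2 : ((∑ k ∈ g c, s α t k : ℤ) : ℝ) = ((∑ k ∈ g d, s α t k : ℤ) : ℝ) := by
        exact_mod_cast (by linarith : ∑ k ∈ g c, s α t k = ∑ k ∈ g d, s α t k)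
      have a1 := sum_s_le α t (g c)
      have a2 := le_sum_s α t (g c)
      have a3 := sum_s_le α t (g d)
      have a4 := le_sum_s α t (g d)
      have a5 : ((g c).card : ℝ) ≤ m := by
        exact_mod_cast (card_le_card (hg' c).1).trans (by simp [hm])
      have a6 : ((g d).card : ℝ) ≤ m := by
        exact_mod_cast (card_le_card (hg' d).1).trans (by simp [hm])
      have a7 : |t * (val α (g c) - val α (g d))| ≤ m := by
        rw [abs_le]; constructor <;> nlinarith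
      have a8 : |val α (g c) - val α (g d)| ≤ m := by
        rw [abs_mul, abs_of_pos (by linarith [ht.1] : 0 < t)] at a7
        nlinarith [ht.1, abs_nonneg (val α (g c) - val α (g d))]
      have a9 := hSe.shift (by linarith) (by omega : m0 ≤ m) (hg' c).1 (hg' d).1 hne
      have a10 : α ^ (A * m) * α ^ m ≤ α ^ K := by
        rw [← pow_add]; exact pow_le_pow_right₀ hα1.le (by omega)
      have a11 := (hN m (by omega)).2
      have a13 : γ ^ m ≤ α ^ m := by gcongr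
      have a12 : 0 < α ^ (A * m) := pow_pos (by linarith) _
      nlinarith)
  simp only [Fintype.card_fun, Fintype.card_bool, Fintype.card_fin, ← hr] at main
  push_cast at main
  set v := (volume {α | S α ∧ Sep α A m0 ∧ ∃ t, 1 ≤ t ∧ t ≤ T1 ∧ Sp α a b π D K0 t}).toReal
  have hv : 0 ≤ v := ENNReal.toReal_nonneg
  have c1 : (4 * C) ^ j ≤ (2 : ℝ) ^ (j * h) := by
    rw [mul_comm j h, pow_mul]; gcongr
  have c2 : (α0 ^ L) ^ j ≤ α0 ^ K' := by
    rw [← pow_mul]; exact pow_le_pow_right₀ hα0 (by rw [mul_comm]; omega)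
  have c3 : (Fintype.card ι : ℝ) * (2 * (3 / α0 ^ K')) ≤ (2 * C) ^ j * (B * 6) := by
    calc _ ≤ B * (C * (2 * α0 ^ L)) ^ j * (2 * (3 / α0 ^ K')) :=
          mul_le_mul_of_nonneg_right (hι.trans (by gcongr)) (by positivity)
      _ = (2 * C) ^ j * (B * (6 * ((α0 ^ L) ^ j / α0 ^ K'))) := by
          rw [mul_pow C, mul_pow 2 C, mul_pow 2]; ring
      _ ≤ (2 * C) ^ j * (B * (6 * 1)) := by
        gcongr
        rw [div_le_iff₀ hp]; linarith
      _ = _ := by ring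
  have c4 : (2 * C) ^ j * (2 ^ j * v) ≤ (2 * C) ^ j * (B * 6) := by
    calc _ = (4 * C) ^ j * v := by
          rw [show 4 * C = 2 * C * 2 by ring, mul_pow (2 * C) 2]; ring
      _ ≤ 2 ^ (j * h) * v := by gcongr
      _ ≤ _ := main.trans c3
  exact le_of_mul_le_mul_left c4 (by positivity)

lemma par_rat {α g : ℝ} (h1 : 1 < α) (h0 : 0 ≤ g) (hg : g * (α ^ 2 - α) < 2 - α)
    (H : Gap α g) : ∃ (a b μ : ℚ) (T : ℕ), Par α a b μ ∧ Two α a b μ T := by
  have h2 : α < 2 := by nlinarith [mul_nonneg h0 (show 0 ≤ α ^ 2 - α by nlinarith)]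
  have h3 : 0 < α - 1 := by linarith
  set l := 1 / (α - 1) with hl
  have hl' : (α - 1) * l = 1 := by rw [hl]; field_simp
  have h4 : α * g < l - 1 := by
    have : (α - 1) * (α * g) < (α - 1) * (l - 1) := by nlinarith
    exact lt_of_mul_lt_mul_left this h3.le
  set η := (l - 1 - α * g) / 8 with hη
  have hη0 : 0 < η := by linarith
  have h5 : 0 ≤ α * g := by positivity
  obtain ⟨a, a1, a2⟩ := exists_rat_btwn (show η / 2 < η by linarith)
  obtain ⟨b, b1, b2⟩ := exists_rat_btwn (show l - 2 * η < l - η by linarith)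
  obtain ⟨μ, m1, m2⟩ := exists_rat_btwn (show 0 < (α - 1) * (η / 2) by positivity)
  have P : Par α a b μ :=
    ⟨h1, h2, by linarith, m1, by nlinarith, by nlinarith, by nlinarith, by nlinarith⟩
  obtain ⟨T, hT⟩ := P.two H (by nlinarith)
  exact ⟨_, _, _, T, P, hT⟩

/-- local-global principle on almost every vertical line -/
theorem ae_local_global : ∀ᵐ α : ℝ, 1 < α → α ^ 2 < α + 1 → ∀ t : ℝ, 0 < t → LocSol t α →
    Good t α := by
  have key : ∀ (a b μ : ℚ) (T A : ℕ), ∀ᵐ α : ℝ, Par α a b μ → Two α a b μ T → (∃ m0, Sep α A m0) →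
      ∀ t : ℝ, 0 < t → LocSol t α → Good t α := by
    intro a b μ T A
    by_cases hc : (0 : ℝ) < a ∧ (1 : ℝ) ≤ b ∧ (0 : ℝ) < μ
    swap
    · exact Eventually.of_forall fun α P => absurd
        ⟨P.ha, by linarith [P.wide, P.ha, P.hμ], P.hμ⟩ hc
    obtain ⟨ω, hω, D, K1, H⟩ := null_W hc.1 hc.2.1 hc.2.2 T A
    have := ae_all_iff.2 fun j : ℕ => ae_all_iff.2 fun m0 : ℕ => ae_all_iff.2 fun π : Finset ℤ =>
      ae_all_iff.2 fun K : ℕ => ae_all_iff.2 fun T1 : ℕ => measure_eq_zero_iff_ae_notMem.1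
        (H (1 + j * ω) (1 + j * ω + ω) (by have : 0 ≤ j * ω := by positivity
                                           linarith)
          (by linarith) (by linarith) m0 π (K1 + K) (by omega) T1)
    filter_upwards [this] with α hα P h2 ⟨m0, hS⟩ t ht hl
    by_contra hg
    obtain ⟨t', t1, π, K, hK⟩ := tail_pattern P ht hl hg D
    have h1 := P.h1
    have j1 := Nat.floor_le (show 0 ≤ (α - 1) / ω by apply div_nonneg <;> linarith)
    have j2 := Nat.lt_floor_add_one ((α - 1) / ω)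
    rw [le_div_iff₀ hω] at j1
    rw [div_lt_iff₀ hω] at j2
    exact hα ⌊(α - 1) / ω⌋₊ m0 π K ⌈t'⌉₊ ⟨⟨by linarith, by linarith, P, h2⟩, hS, t', t1,
      Nat.le_ceil _, fun n hn => hK n (by omega)⟩
  filter_upwards [ae_sep, ae_gap, ae_all_iff.2 fun a => ae_all_iff.2 fun b => ae_all_iff.2 fun μ =>
    ae_all_iff.2 fun T => ae_all_iff.2 fun A => key a b μ T A] with α h1 h2 h3 a1 a2
  obtain ⟨A, hS⟩ := h1 a1
  obtain ⟨a, b, μ, T, P, hT⟩ : ∃ (a b μ : ℚ) (T : ℕ), Par α a b μ ∧ Two α a b μ T := by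
    by_cases hc : α ≤ 39 / 25
    · obtain ⟨g, g0, g1, g2⟩ := gap_small a1 hc
      exact par_rat a1 g0 g1 g2
    · refine par_rat a1 (by norm_num) ?_ (h2 (by linarith) a2)
      have : α < 1.6181 := by nlinarith
      nlinarith
  exact h3 a b μ T A P hT hS

end Pool.Agent.P.MP_0ff3a5_nt.All
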