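import Pool.Agent.P.MP_0ff3a5_nt.PartA

/-! Separated persistent patterns from a local condition. -/

namespace Pool.Agent.P.MP_0ff3a5_nt.All
open Finset Filter Pool.Agent.P.MP_0ff3a5_nt

/-- the base pattern together with the tail reaches every residue class -/
def Cov (α t : ℝ) (π0 : Finset ℤ) (d : ℕ) : Prop :=
  ∀ r : ℤ, ∃ p ∈ π0, ∃ R : Finset ℕ, ∑ k ∈ R, s α t k - p ≡ r [ZMOD d]

lemma no_ap' {α a b μ t : ℝ} (P : Par α a b μ) (ht1 : 1 ≤ t) (ht : 2 ≤ (2 - α) * (t - 1))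
    {π0 : Finset ℤ} (hπ0 : ∀ p ∈ π0, p ≤ 0) {d : ℕ} (hd : 1 ≤ d) (hres : Cov α t π0 d) :
    ∃ L : ℕ, ∀ π : Finset ℤ, (∀ k : ℕ, k ≤ L → ∀ p ∈ π0, (k * d + p : ℤ) ∈ π) →
      ¬ Pers α a b t π := by
  classical
  have h1 := P.h1
  have h0 : ∀ n, 0 ≤ s α t n := s_nonneg (by linarith) (by linarith)
  choose pp hpp RR hRR using hres
  set R : Finset ℕ := (range d).biUnion fun j => RR j with hR
  obtain ⟨N, hN⟩ := R.exists_nat_subset_range
  set M : ℤ := ∑ p ∈ π0, -p with hM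
  refine ⟨(s α t N + ∑ k ∈ R, s α t k + M).toNat, fun π hπ => ?_⟩
  rw [Pers, not_frequently]
  have t0 : Tendsto (fun n : ℕ => (n : ℝ) ^ 1 / α ^ n) atTop (nhds 0) :=
    tendsto_pow_const_div_const_pow_of_one_lt 1 h1
  have hμ := P.hμ
  have t1 : ∀ᶠ n : ℕ in atTop, (n : ℝ) ^ 1 / α ^ n < μ / 2 := t0.eventually_lt_const (by linarith)
  have t2 : ∀ᶠ j : ℕ in atTop, 2 * α ^ N / μ ≤ α ^ j :=
    (tendsto_pow_atTop_atTop_of_one_lt h1).eventually_ge_atTop _
  filter_upwards [t1, t2, eventually_ge_atTop N] with K k1 k2 k3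
  rintro ⟨y, ⟨b1, b2⟩, hm⟩
  have hp : 0 < α ^ K := pow_pos (by linarith) K
  rw [pow_one, div_lt_iff₀ hp] at k1
  rw [div_le_iff₀ hμ] at k2
  rw [le_div_iff₀ (by linarith)] at b1
  rw [div_le_iff₀ (by linarith)] at b2
  have y0 : 0 ≤ y := by
    have : (0 : ℝ) ≤ y := le_trans (by have := P.ha; positivity) b1
    exact_mod_cast this
  have y1 : y ≤ ∑ k ∈ Ico N K, s α t k := by
    have e1 := le_sum_s α t (Ico N K)
    have e2 := geom_Ico (α := α) N K k3
    have e3 : ((Ico N K).card : ℝ) ≤ K := by exact_mod_cast (by simp : (Ico N K).card ≤ K)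
    have e4 : (α - 1) * (b * α ^ K * t) ≤ (α - 1) * (t * val α (Ico N K) - K) := by
      have : (α - 1) * (t * val α (Ico N K)) = t * (α ^ K - α ^ N) := by
        rw [← e2, val]; ring
      have h5 : (α - 1) * b * (α ^ K * t) ≤ (1 - μ) * (α ^ K * t) := by
        have := P.hi; gcongr
      have h6 : (α - 1) * K ≤ K := by
        have : (0 : ℝ) ≤ K := Nat.cast_nonneg _
        nlinarith [P.h2]
      have h7 : α ^ N * t ≤ μ / 2 * α ^ K * t := by gcongr; linarith
      have h8 : μ / 2 * α ^ K ≤ μ / 2 * α ^ K * t := by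
        have : 0 ≤ μ / 2 * α ^ K := by positivity
        nlinarith
      nlinarith
    have e5 := le_of_mul_le_mul_left e4 (by linarith)
    have : (y : ℝ) ≤ ((∑ k ∈ Ico N K, s α t k : ℤ) : ℝ) := by linarith
    exact_mod_cast this
  obtain ⟨F, hF, f1, f2⟩ := (synd h0 (s_double h1 P.h2 ht1 ht) N K k3).2 (y + s α t N)
    (by linarith [h0 N]) (by linarith)
  set r := ∑ k ∈ F, s α t k - y with hr
  have hd0 : (0 : ℤ) < d := by exact_mod_cast hd
  have j1 : 0 ≤ (-r) % (d : ℤ) := Int.emod_nonneg _ hd0.ne'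
  have j2 : (-r) % (d : ℤ) < d := Int.emod_lt_of_pos _ hd0
  set j := ((-r) % (d : ℤ)).toNat with hj
  have hjz : (j : ℤ) = (-r) % (d : ℤ) := by omega
  have hG : RR j ⊆ R := subset_biUnion_of_mem (fun j : ℕ => RR j) (mem_range.2 (by omega))
  have g3 : r + (∑ k ∈ RR j, s α t k - pp j) ≡ 0 [ZMOD d] := by
    have : r + (∑ k ∈ RR j, s α t k - pp j) ≡ r + -r [ZMOD d] :=
      ((hRR j).trans (hjz ▸ Int.mod_modEq _ _)).add_left r
    simpa using this
  obtain ⟨c, hc⟩ := (Int.modEq_zero_iff_dvd.1 g3)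
  have g4 : 0 ≤ ∑ k ∈ RR j, s α t k := sum_nonneg fun k _ => h0 k
  have g5 : ∑ k ∈ RR j, s α t k ≤ ∑ k ∈ R, s α t k :=
    sum_le_sum_of_subset_of_nonneg hG fun k _ _ => h0 k
  have g6 := hπ0 _ (hpp j)
  have g7 : -pp j ≤ M :=
    single_le_sum (f := fun p : ℤ => -p) (fun p hp => by linarith [hπ0 p hp]) (hpp j)
  have c0 : 0 ≤ c := by
    by_contra h
    have : (d : ℤ) * c < 0 := mul_neg_of_pos_of_neg hd0 (not_le.1 h)
    omega
  have c1 : c ≤ s α t N + ∑ k ∈ R, s α t k + M := by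
    have : c ≤ (d : ℤ) * c := le_mul_of_one_le_left c0 (by omega)
    omega
  have hG' : RR j ⊆ Ico 0 N := by rw [← range_eq_Ico]; exact hG.trans hN
  refine hm _ (hπ c.toNat (by omega) _ (hpp j)) (F ∪ RR j) ?_ ?_
  · rw [range_eq_Ico]; exact union_Ico (by omega) k3 hF hG'
  · rw [sum_union (disj_Ico hF hG'), Int.toNat_of_nonneg c0]; linarith

lemma pattern' {α a b μ t : ℝ} (P : Par α a b μ) (ht1 : 1 ≤ t) (ht : 2 ≤ (2 - α) * (t - 1))
    {π0 : Finset ℤ} (hπ0 : ∀ p ∈ π0, p ≤ 0) (hres : ∀ d : ℕ, 1 ≤ d → Cov α t π0 d)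
    (h : Pers α a b t π0) (D : ℕ) :
    ∃ π : Finset ℤ, ∀ᶠ n in atTop, (∃ y, Vd α a b t π n y) ∧
      ∀ y y', Vd α a b t π n y → Vd α a b t π n y' → |y - y'| ≤ D → y = y' := by
  classical
  by_contra hc
  have step : ∀ π, Pers α a b t π → ∃ d ∈ Icc 1 D,
      Pers α a b t (π ∪ π.image (· + (d : ℤ))) := by
    intro π hπ
    by_contra hn
    push Not at hn
    refine hc ⟨π, (hπ.all P ht1).and ?_⟩
    have : ∀ᶠ n in atTop, ∀ d ∈ Icc 1 D, ¬ ∃ y, Vd α a b t (π ∪ π.image (· + (d : ℤ))) n y :=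
      (eventually_all_finset _).2 fun d hd => not_frequently.1 (hn d hd)
    filter_upwards [this] with n hn'
    have key : ∀ y y', Vd α a b t π n y → Vd α a b t π n y' → y' - y ≤ D → ¬ y < y' := by
      intro y y' v v' l1 l2
      refine hn' (y' - y).toNat (mem_Icc.2 ⟨by omega, by omega⟩) ⟨y, v.1, fun p hp => ?_⟩
      rcases mem_union.1 hp with hp | hp
      · exact v.2 p hp
      · obtain ⟨q, hq, rfl⟩ := mem_image.1 hp
        have := v'.2 q hq
        rwa [show y + (q + ((y' - y).toNat : ℤ)) = y' + q by omega]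
    intro y y' v v' l
    obtain ⟨l1, l2⟩ := abs_le.1 l
    have := key y y' v v' (by omega)
    have := key y' y v' v (by omega)
    omega
  have ind : ∀ r : ℕ, ∃ π, Pers α a b t π ∧ ∃ c : ℕ → ℕ, ∑ d ∈ Icc 1 D, c d = r ∧
      ∀ d k : ℕ, k ≤ c d → ∀ p ∈ π0, (k * d + p : ℤ) ∈ π := by
    intro r
    induction r with
    | zero => exact ⟨π0, h, fun _ => 0, by simp, by simp⟩
    | succ r ih =>
      obtain ⟨π, hπ, c, c1, c2⟩ := ih
      obtain ⟨d, hd, hp⟩ := step π hπ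
      refine ⟨_, hp, fun e => c e + if e = d then 1 else 0, ?_, fun e k hk p hp0 => ?_⟩
      · rw [sum_add_distrib, c1]; simp [hd]
      · by_cases h1 : k ≤ c e
        · exact mem_union_left _ (c2 e k h1 p hp0)
        · have he : e = d := by
            by_contra he; simp [he] at hk; omega
          subst he
          simp only [if_true] at hk
          refine mem_union_right _ (mem_image.2 ⟨_, c2 e (c e) le_rfl p hp0, ?_⟩)
          rw [show k = c e + 1 by omega]; push_cast; ring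
  have ap : ∀ d : ℕ, ∃ L : ℕ, 1 ≤ d → ∀ π : Finset ℤ,
      (∀ k : ℕ, k ≤ L → ∀ p ∈ π0, (k * d + p : ℤ) ∈ π) → ¬ Pers α a b t π := by
    intro d
    by_cases hd : 1 ≤ d
    · obtain ⟨L, hL⟩ := no_ap' P ht1 ht hπ0 hd (hres d hd)
      exact ⟨L, fun _ => hL⟩
    · exact ⟨0, fun h => absurd h hd⟩
  choose L hL using ap
  obtain ⟨π, hπ, c, c1, c2⟩ := ind (∑ d ∈ Icc 1 D, L d + 1)
  obtain ⟨d, hd, hlt⟩ := exists_lt_of_sum_lt (s := Icc 1 D) (f := L) (g := c) (by omega)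
  exact hL d (mem_Icc.1 hd).1 π (fun k hk => c2 d k (by omega)) hπ

/-- local solubility of the set of values -/
def LocSol (t α : ℝ) : Prop :=
  ∀ d : ℕ, 1 ≤ d → ∀ r : ℤ, ∃ F : Finset ℤ, (∀ x ∈ F, ∃ n : ℕ, x = ⌊t * α ^ n⌋) ∧
    ∑ x ∈ F, x ≡ r [ZMOD d]

lemma Good.locSol {t α : ℝ} (h : Good t α) : LocSol t α := by
  obtain ⟨N, hN⟩ := h
  intro d hd r
  obtain ⟨F, h1, h2⟩ := hN (r + d * (|N| + |r|)) (by
    have h0 : (1 : ℤ) ≤ d := by exact_mod_cast hd
    have := le_abs_self N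
    have := neg_abs_le r
    have := abs_nonneg N
    have := abs_nonneg r
    nlinarith)
  exact ⟨F, h1, by rw [h2]; simp⟩

/-- reduction to a tail with a base pattern -/
lemma tail_pattern {α a b μ t : ℝ} (P : Par α a b μ) (ht0 : 0 < t) (hl : LocSol t α)
    (h : ¬ Good t α) (D : ℕ) : ∃ t' : ℝ, 1 ≤ t' ∧ ∃ (π : Finset ℤ) (K : ℕ), Sp α a b π D K t' := by
  classical
  have h1 := P.h1
  have tt : Tendsto (fun N : ℕ => t * α ^ N) atTop atTop :=
    (tendsto_pow_atTop_atTop_of_one_lt h1).const_mul_atTop ht0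
  obtain ⟨N, n1, n2⟩ := ((tt.eventually_ge_atTop (2 / (2 - α) + 1)).and
    (tt.eventually_ge_atTop (1 / (α - 1)))).exists
  have h2' : 0 < 2 - α := by linarith [P.h2]
  rw [div_le_iff₀ (by linarith)] at n2
  have n3 : 2 / (2 - α) ≤ t * α ^ N - 1 := by linarith
  have n4 : 0 < 2 / (2 - α) := by positivity
  rw [div_le_iff₀ h2'] at n3
  set t' := t * α ^ N with ht'
  have ht1 : 1 ≤ t' := by linarith
  have mono : StrictMono (s α t') := by
    refine strictMono_nat_of_lt_succ fun n => ?_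
    have a3 : 1 ≤ α ^ n := one_le_pow₀ h1.le
    have : s α t' n + 1 ≤ s α t' (n + 1) := by
      rw [s, s, ← Int.floor_add_one]
      exact Int.floor_mono (by rw [pow_succ]; nlinarith)
    omega
  have sh : ∀ k, s α t' k = s α t (N + k) := fun k => by rw [s, s, ht', pow_add, mul_assoc]
  set I : Finset ℤ := ((range N).image (s α t)).filter (· < s α t' 0) with hI
  set π0 : Finset ℤ := I.powerset.image fun G => -∑ x ∈ G, x with hπ0
  have I0 : ∀ x ∈ I, 0 ≤ x := by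
    intro x hx
    obtain ⟨k, -, rfl⟩ := mem_image.1 (mem_filter.1 hx).1
    exact s_nonneg (by linarith) ht0.le _
  have neg : ∀ p ∈ π0, p ≤ 0 := by
    intro p hp
    obtain ⟨G, hG, rfl⟩ := mem_image.1 hp
    have := sum_nonneg fun x hx => I0 x (mem_powerset.1 hG hx)
    linarith
  have cov : ∀ d : ℕ, 1 ≤ d → Cov α t' π0 d := by
    intro d hd r
    obtain ⟨F, f1, f2⟩ := hl d hd r
    have ex : ∀ x ∈ F.filter (· ∉ I), ∃ k, s α t' k = x := by
      intro x hx
      obtain ⟨x1, x2⟩ := mem_filter.1 hx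
      obtain ⟨n, rfl⟩ := f1 x x1
      by_cases hn : N ≤ n
      · exact ⟨n - N, by rw [sh, show N + (n - N) = n by omega, s]⟩
      · refine ⟨0, le_antisymm ?_ ?_⟩
        · by_contra hc
          exact x2 (mem_filter.2 ⟨mem_image.2 ⟨n, mem_range.2 (by omega), rfl⟩, not_le.1 hc⟩)
        · rw [sh, s]
          exact Int.floor_mono (by gcongr; exacts [h1.le, by omega])
    choose! g hg using ex
    refine ⟨-∑ x ∈ F.filter (· ∈ I), x,
      mem_image.2 ⟨_, mem_powerset.2 fun x hx => (mem_filter.1 hx).2, rfl⟩,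
      (F.filter (· ∉ I)).image g, ?_⟩
    rw [sum_image fun x hx y hy e => by rw [← hg x hx, ← hg y hy, e],
      sum_congr rfl fun x hx => hg x hx, sub_neg_eq_add, add_comm, sum_filter_add_sum_filter_not]
    exact f2
  have pers : Pers α a b t' π0 := by
    by_contra hc
    rw [Pers, not_frequently] at hc
    obtain ⟨K, hK⟩ := eventually_atTop.1 hc
    refine h ⟨⌈a * α ^ K * t'⌉, fun m hm => ?_⟩
    have : a * α ^ K ≤ m / t' := by
      rw [le_div_iff₀ (by linarith)]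
      exact (Int.le_ceil _).trans (by exact_mod_cast hm)
    obtain ⟨n, hn, hb⟩ := P.cover K this
    by_contra hF
    refine hK n hn ⟨m, hb, fun p hp F _ e => hF ?_⟩
    obtain ⟨G, hG, rfl⟩ := mem_image.1 hp
    have hG' := mem_powerset.1 hG
    refine ⟨F.image (s α t') ∪ G, fun x hx => ?_, ?_⟩
    · rcases mem_union.1 hx with hx | hx
      · obtain ⟨k, -, rfl⟩ := mem_image.1 hx
        exact ⟨N + k, by rw [sh, s]⟩
      · obtain ⟨k, -, rfl⟩ := mem_image.1 (mem_filter.1 (hG' hx)).1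
        exact ⟨k, rfl⟩
    · rw [sum_union, sum_image fun x _ y _ e => mono.injective e, e]
      · ring
      · rw [disjoint_left]
        intro x hx hx'
        obtain ⟨k, -, rfl⟩ := mem_image.1 hx
        have := (mem_filter.1 (hG' hx')).2
        have := mono.monotone (Nat.zero_le k)
        omega
  obtain ⟨π, hπ⟩ := pattern' P ht1 (by linarith) neg cov pers D
  obtain ⟨K, hK⟩ := eventually_atTop.1 hπ
  exact ⟨t', ht1, π, K, hK⟩

end Pool.Agent.P.MP_0ff3a5_nt.All
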