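import Pool.Agent.P.MP_0ff3a5_nt.All.Pat

/-! For almost every base below two no orbit has all fractional parts in `[0, 1/3]`. -/

namespace Pool.Agent.P.MP_0ff3a5_nt.All
open Filter MeasureTheory Set Topology Pool.Agent.P.MP_0ff3a5_nt

lemma null_of_porous {E : Set ℝ} (h : ∀ x ∈ E, ∃ c > 0, ∃ r : ℕ → ℝ, Tendsto r atTop (𝓝[>] 0) ∧
    ∀ᶠ n in atTop, ∃ y, x - r n ≤ y ∧ y + c * r n ≤ x + r n ∧ ∀ z ∈ E, z ≤ y ∨ y + c * r n ≤ z) :
    volume E = 0 := by
  have H := Besicovitch.ae_tendsto_measure_inter_div (volume : Measure ℝ) E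
  rw [ae_iff] at H
  have sub : E ⊆ {x | ¬ Tendsto (fun r => volume (E ∩ Metric.closedBall x r) /
      volume (Metric.closedBall x r)) (𝓝[>] 0) (𝓝 1)} := by
    intro x hxE hx
    obtain ⟨c, hc, r, tr, hr⟩ := h x hxE
    have h2 := hx.comp tr
    have h3 : ∀ᶠ n : ℕ in atTop, ((fun r => volume (E ∩ Metric.closedBall x r) /
        volume (Metric.closedBall x r)) ∘ r) n ≤ ENNReal.ofReal (1 - c / 2) := by
      filter_upwards [hr, (tendsto_nhdsWithin_iff.1 tr).2] with n ⟨y, y1, y2, y3⟩ hp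
      have hp' : 0 < r n := hp
      simp only [Function.comp]
      have sub : E ∩ Metric.closedBall x (r n) ⊆
          Icc (x - r n) y ∪ Icc (y + c * r n) (x + r n) := by
        rintro t ⟨t1, t2⟩
        rw [Real.closedBall_eq_Icc] at t2
        rcases y3 t t1 with h | h
        · exact Or.inl ⟨t2.1, h⟩
        · exact Or.inr ⟨h, t2.2⟩
      have v1 : volume (E ∩ Metric.closedBall x (r n)) ≤ ENNReal.ofReal ((2 - c) * r n) := by
        refine (measure_mono sub).trans ((measure_union_le _ _).trans ?_)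
        rw [Real.volume_Icc, Real.volume_Icc, ← ENNReal.ofReal_add (by linarith) (by linarith)]
        apply le_of_eq; congr 1; ring
      rw [Real.volume_closedBall]
      refine ENNReal.div_le_of_le_mul (v1.trans ?_)
      rw [← ENNReal.ofReal_mul (by nlinarith)]
      apply le_of_eq; congr 1; ring
    have := le_of_tendsto h2 h3
    rw [ENNReal.one_le_ofReal] at this
    linarith
  rw [← Measure.restrict_apply_self]
  exact measure_mono_null sub H

lemma fr_close {x y : ℝ} (hx : Int.fract x ≤ 1 / 3) (hy : Int.fract y ≤ 1 / 3)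
    (h : ⌊x⌋ = ⌊y⌋) : |x - y| ≤ 1 / 3 := by
  have a1 := Int.fract_nonneg x
  have a2 := Int.fract_nonneg y
  have a3 := Int.floor_add_fract x
  have a4 := Int.floor_add_fract y
  rw [h] at a3
  rw [abs_le]; constructor <;> linarith

lemma fr_eq {x y : ℝ} (hx : Int.fract x ≤ 1 / 3) (hy : Int.fract y ≤ 1 / 3)
    (h : |x - y| < 2 / 3) : ⌊x⌋ = ⌊y⌋ := by
  have a1 := Int.fract_nonneg x
  have a2 := Int.fract_nonneg y
  have a3 := Int.floor_add_fract x
  have a4 := Int.floor_add_fract y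
  obtain ⟨a5, a6⟩ := abs_lt.1 h
  have b1 : ((⌊x⌋ - ⌊y⌋ : ℤ) : ℝ) < 1 := by push_cast; linarith
  have b2 : (-1 : ℝ) < ((⌊x⌋ - ⌊y⌋ : ℤ) : ℝ) := by push_cast; linarith
  have c1 : ⌊x⌋ - ⌊y⌋ < 1 := by exact_mod_cast b1
  have c2 : -1 < ⌊x⌋ - ⌊y⌋ := by exact_mod_cast b2
  omega

theorem ae_third : ∀ᵐ α : ℝ, 1 < α → α < 2 → ∀ ξ : ℝ, 0 < ξ →
    ∃ n : ℕ, 1 / 3 < Int.fract (ξ * α ^ n) := by
  have key : ∀ b : ℤ, volume {α : ℝ | 1 < α ∧ α < 2 ∧ ∃ ξ : ℝ, 0 < ξ ∧ ⌊ξ⌋ = b ∧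
      ∀ n : ℕ, Int.fract (ξ * α ^ n) ≤ 1 / 3} = 0 := by
    intro b
    refine null_of_porous ?_
    rintro α ⟨h1, h2, ξ, hξ, hb, hf⟩
    have tt : Tendsto (fun n : ℕ => ξ * α ^ n) atTop atTop :=
      (tendsto_pow_atTop_atTop_of_one_lt h1).const_mul_atTop hξ
    refine ⟨(2 - α) / 48, by linarith, fun n => 2 / (ξ * α ^ n), ?_, ?_⟩
    · refine tendsto_nhdsWithin_iff.2 ⟨tendsto_const_nhds.div_atTop tt,
        Eventually.of_forall fun n => ?_⟩
      simp only [mem_Ioi]; positivity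
    filter_upwards [tt.eventually_ge_atTop 1, tt.eventually_gt_atTop (4 / (2 - α))] with n x1 x2
    set X := ξ * α ^ n with hX
    have X0 : 0 < X := by linarith
    rw [div_lt_iff₀ (by linarith)] at x2
    set Z : Set ℝ := {α' | 1 < α' ∧ α' < 2 ∧ ∃ ξ' : ℝ, 0 < ξ' ∧
      (∀ k : ℕ, Int.fract (ξ' * α' ^ k) ≤ 1 / 3) ∧
      ∀ k ≤ n + 1, ⌊ξ' * α' ^ k⌋ = ⌊ξ * α ^ k⌋} with hZ
    have zα : α ∈ Z := ⟨h1, h2, ξ, hξ, hf, fun _ _ => rfl⟩
    have ub : ∀ z ∈ Z, z ≤ α + 1 / X := by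
      rintro z ⟨z1, z2, ξ', -, z3, z4⟩
      obtain ⟨a1, a2⟩ := abs_le.1 (fr_close (z3 n) (hf n) (z4 n (by omega)))
      obtain ⟨a3, a4⟩ := abs_le.1 (fr_close (z3 (n + 1)) (hf (n + 1)) (z4 (n + 1) le_rfl))
      have e : (z - α) * X = (ξ' * z ^ (n + 1) - ξ * α ^ (n + 1)) - z * (ξ' * z ^ n - X) := by
        rw [hX]; ring
      rw [← sub_le_iff_le_add', le_div_iff₀ X0, e]
      nlinarith
    have bd : BddAbove Z := ⟨_, ub⟩
    have u1 : α ≤ sSup Z := le_csSup bd zα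
    have u2 : sSup Z ≤ α + 1 / X := csSup_le ⟨_, zα⟩ ub
    have iX : 0 < 1 / X := by positivity
    have e2 : 2 / X = 2 * (1 / X) := by ring
    refine ⟨sSup Z, by rw [e2]; linarith, by rw [e2]; nlinarith, ?_⟩
    rintro z ⟨z1, z2, ξ', hξ', hb', hf'⟩
    by_contra hc
    push Not at hc
    obtain ⟨c1, c2⟩ := hc
    have g0 : 0 < (2 - α) / 48 * (2 / X) := by
      have : 0 < 2 - α := by linarith
      positivity
    obtain ⟨w, ⟨w1, w2, ζ, hζ, w3, w4⟩, w5⟩ := exists_lt_of_lt_csSup ⟨_, zα⟩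
      (show sSup Z - (2 - α) / 48 * (2 / X) < sSup Z by linarith)
    have w6 : w ≤ sSup Z := le_csSup bd ⟨w1, w2, ζ, hζ, w3, w4⟩
    have zw : (z - w) * X ≤ (2 - α) / 12 := by
      have : z - w ≤ (2 - α) / 12 / X := by
        have : (2 - α) / 12 / X = 2 * ((2 - α) / 48 * (2 / X)) := by ring
        linarith
      rwa [le_div_iff₀ X0] at this
    have zb : z < (2 + α) / 2 := by
      have : 2 / X < (2 - α) / 2 := by rw [div_lt_iff₀ X0]; linarith
      have : (2 - α) / 48 * (2 / X) ≤ 1 / X := by rw [e2]; nlinarith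
      linarith
    have ind : ∀ k ≤ n + 1, ⌊ξ' * z ^ k⌋ = ⌊ζ * w ^ k⌋ := by
      intro k
      induction k with
      | zero =>
        intro _
        rw [w4 0 (by omega)]; simp [hb, hb']
      | succ k ih =>
        intro hk
        obtain ⟨a1, a2⟩ := abs_le.1 (fr_close (hf' k) (w3 k) (ih (by omega)))
        have a3 := (abs_le.1 (fr_close (w3 n) (hf n) (w4 n (by omega)))).2
        have a4 : ζ * w ^ k ≤ ζ * w ^ n := by gcongr; exacts [w1.le, by omega]
        have a5 : 0 < ζ * w ^ k := by positivity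
        have e : ξ' * z ^ (k + 1) - ζ * w ^ (k + 1) =
            z * (ξ' * z ^ k - ζ * w ^ k) + (z - w) * (ζ * w ^ k) := by ring
        have a6 : (z - w) * (ζ * w ^ k) ≤ (z - w) * (2 * X) :=
          mul_le_mul_of_nonneg_left (by linarith) (by linarith)
        have a7 : 0 ≤ (z - w) * (ζ * w ^ k) := mul_nonneg (by linarith) a5.le
        refine fr_eq (hf' _) (w3 _) ?_
        rw [e, abs_lt]
        constructor <;> nlinarith
    have : z ≤ sSup Z := le_csSup bd ⟨z1, z2, ξ', hξ', hf', fun k hk => (ind k hk).trans (w4 k hk)⟩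
    linarith
  filter_upwards [ae_all_iff.2 fun b => measure_eq_zero_iff_ae_notMem.1 (key b)]
    with α h a1 a2 ξ hξ
  by_contra hc
  push Not at hc
  exact h ⌊ξ⌋ ⟨a1, a2, ξ, hξ, rfl, hc⟩

lemma locSol_of_odd {t α : ℝ} (h1 : 1 < α) (ht : 0 < t)
    (h3 : ∀ ξ : ℝ, 0 < ξ → ∃ n : ℕ, 1 / 3 < Int.fract (ξ * α ^ n))
    (ho : ∃ n : ℕ, Odd ⌊t * α ^ n⌋) : LocSol t α := by
  classical
  intro d hd
  have : NeZero d := ⟨by omega⟩
  set S : Finset ℤ → Finset (ZMod d) := fun F =>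
    F.powerset.image fun G => ((∑ x ∈ G, x : ℤ) : ZMod d) with hS
  obtain ⟨_, ⟨F, hF, rfl⟩, hmax⟩ := exists_max_image
    (S '' {F : Finset ℤ | ∀ x ∈ F, ∃ n : ℕ, x = ⌊t * α ^ n⌋}) Finset.card (toFinite _)
    ⟨_, ∅, by simp, rfl⟩
  have mem : ∀ G ⊆ F, ((∑ x ∈ G, x : ℤ) : ZMod d) ∈ S F := fun G hG =>
    Finset.mem_image.2 ⟨G, Finset.mem_powerset.2 hG, rfl⟩
  set H : AddSubgroup ℤ :=
    { carrier := {z | ∀ r ∈ S F, r + (z : ZMod d) ∈ S F}
      add_mem' := fun {x y} hx hy r hr => by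
        push_cast; rw [← add_assoc]; exact hy _ (hx r hr)
      zero_mem' := fun r hr => by simpa using hr
      neg_mem' := fun {x} hx r hr => by
        have : ∀ k : ℕ, r + (k : ZMod d) * x ∈ S F := by
          intro k
          induction k with
          | zero => simpa using hr
          | succ k ih =>
            have := hx _ ih
            push_cast; rwa [add_mul, one_mul, ← add_assoc]
        have h := this (d - 1)
        rw [Nat.cast_sub hd, ZMod.natCast_self] at h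
        simpa using h } with hH
  have out : ∀ n : ℕ, ⌊t * α ^ n⌋ ∉ F → ⌊t * α ^ n⌋ ∈ H := by
    intro n hn r hr
    have sub : S F ⊆ S (insert ⌊t * α ^ n⌋ F) :=
      Finset.image_subset_image (Finset.powerset_mono.2 (Finset.subset_insert _ _))
    have eq := Finset.eq_of_subset_of_card_le sub (hmax _ ⟨_, fun x hx => by
      rcases Finset.mem_insert.1 hx with rfl | hx
      exacts [⟨n, rfl⟩, hF x hx], rfl⟩)
    obtain ⟨G, hG, rfl⟩ := Finset.mem_image.1 hr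
    have hG' := Finset.mem_powerset.1 hG
    rw [eq]
    refine Finset.mem_image.2 ⟨insert ⌊t * α ^ n⌋ G,
      Finset.mem_powerset.2 (Finset.insert_subset_insert _ hG'), ?_⟩
    rw [Finset.sum_insert fun h => hn (hG' h)]
    push_cast; ring
  obtain ⟨g, hg⟩ := Int.subgroup_cyclic H
  have dv : ∀ z, z ∈ H ↔ g ∣ z := fun z => by
    rw [hg, AddSubgroup.mem_closure_singleton]
    exact ⟨fun ⟨n, hn⟩ => ⟨n, by rw [← hn]; simp [mul_comm]⟩,
      fun ⟨n, hn⟩ => ⟨n, by rw [hn]; simp [mul_comm]⟩⟩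
  have two : g ∣ 2 := by
    by_contra hc
    obtain ⟨q, q3, hq⟩ : ∃ q : ℤ, 3 ≤ q ∧ q ∣ g := by
      by_cases g0 : g = 0
      · exact ⟨3, le_rfl, by simp [g0]⟩
      · refine ⟨|g|, ?_, by simp⟩
        by_contra h
        have : |g| = 1 ∨ |g| = 2 := by have := abs_pos.2 g0; omega
        rcases this with h | h
        · exact hc ((abs_dvd g 2).1 (by rw [h]; norm_num))
        · exact hc ((abs_dvd g 2).1 (by rw [h]))
    have tt : Tendsto (fun n : ℕ => t * α ^ n) atTop atTop :=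
      (tendsto_pow_atTop_atTop_of_one_lt h1).const_mul_atTop ht
    obtain ⟨M, hM⟩ := F.bddAbove
    obtain ⟨N, hN⟩ := eventually_atTop.1 (tt.eventually_ge_atTop ((M : ℝ) + 1))
    have q0 : (3 : ℝ) ≤ q := by exact_mod_cast q3
    obtain ⟨n, hn⟩ := h3 (t * α ^ N / q) (by positivity)
    have a1 : ⌊t * α ^ (N + n)⌋ ∉ F := fun h => by
      have b1 : ⌊t * α ^ (N + n)⌋ ≤ M := hM h
      have b2 : M + 1 ≤ ⌊t * α ^ (N + n)⌋ := Int.le_floor.2 (by exact_mod_cast hN _ (by omega))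
      omega
    obtain ⟨c, hc'⟩ := hq.trans ((dv _).1 (out _ a1))
    obtain ⟨b1, b2⟩ := Int.floor_eq_iff.1 hc'
    push_cast at b1 b2
    have e : t * α ^ N / q * α ^ n = t * α ^ (N + n) / q := by rw [pow_add]; ring
    have b3 : (c : ℝ) ≤ t * α ^ (N + n) / q := by rw [le_div_iff₀ (by linarith)]; linarith
    have b4 : t * α ^ (N + n) / q ≤ c + 1 / 3 := by rw [div_le_iff₀ (by linarith)]; nlinarith
    have b5 : ⌊t * α ^ (N + n) / q⌋ = c := Int.floor_eq_iff.2 ⟨b3, by linarith⟩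
    rw [e, Int.fract, b5] at hn
    linarith
  have ev : ∀ z : ℤ, Even z → z ∈ H := fun z hz => (dv z).2 (two.trans hz.two_dvd)
  have z0 : (0 : ZMod d) ∈ S F := by simpa using mem ∅ (Finset.empty_subset _)
  have all : ∀ r : ℤ, (r : ZMod d) ∈ S F := by
    intro r
    rcases Int.even_or_odd r with hr | hr
    · simpa using ev r hr 0 z0
    · obtain ⟨n, hn⟩ := ho
      have a1 : ((⌊t * α ^ n⌋ : ℤ) : ZMod d) ∈ S F := by
        by_cases hc : ⌊t * α ^ n⌋ ∈ F
        · simpa using mem {⌊t * α ^ n⌋} (Finset.singleton_subset_iff.2 hc)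
        · simpa using out n hc 0 z0
      simpa using ev (r - ⌊t * α ^ n⌋) (hr.sub_odd hn) _ a1
  intro r
  obtain ⟨G, hG, e⟩ := Finset.mem_image.1 (all r)
  exact ⟨G, fun x hx => hF x (Finset.mem_powerset.1 hG hx), (ZMod.intCast_eq_intCast_iff _ _ _).1 e⟩

lemma Good.odd {t α : ℝ} (h : Good t α) : ∃ n : ℕ, Odd ⌊t * α ^ n⌋ := by
  obtain ⟨F, h1, h2⟩ := Good.locSol h 2 (by norm_num) 1
  by_contra hc
  push Not at hc
  have : Even (∑ x ∈ F, x) := Finset.even_sum _ fun x hx => by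
    obtain ⟨n, rfl⟩ := h1 x hx
    exact Int.not_odd_iff_even.1 (hc n)
  obtain ⟨k, hk⟩ := this
  rw [hk, Int.ModEq] at h2
  omega

end Pool.Agent.P.MP_0ff3a5_nt.All
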